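import Mathlib

set_option autoImplicit false

/-!
The number of vectors with small sum and few small nonzero entries.
-/

open scoped Classical
open Finset

namespace Pool.Agent.D0H37.OC

/-- the weight -/
noncomputable def wt (q z : ℝ) (T v : ℕ) : ℝ :=
  q ^ v * if 1 ≤ v ∧ v < T then 1 / z else 1

theorem wt_nonneg {q z : ℝ} (hq : 0 < q) (hz : 0 < z) (T v : ℕ) : 0 ≤ wt q z T v := by
  unfold wt
  split_ifs
  · positivity
  · positivity

theorem wt_sum {q z : ℝ} (hq : 0 < q) (hq1 : q < 1) (hz : 0 < z) (T M : ℕ) (hT : 1 ≤ T) :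
    ∑ v ∈ range M, wt q z T v ≤ 1 + (q ^ T / (1 - q) + 1 / z * (1 / (1 - q))) := by
  have h1q : 0 < 1 - q := by linarith
  have hgeo : ∀ n : ℕ, ∑ v ∈ range n, q ^ v ≤ 1 / (1 - q) := by
    intro n
    rw [le_div_iff₀ h1q]
    have := geom_sum_mul_neg q n
    rw [this]
    have : 0 ≤ q ^ n := by positivity
    linarith
  have h1 : ∀ v ∈ range M, wt q z T v ≤
      (if v = 0 then 1 else 0) + ((if T ≤ v then q ^ v else 0) + 1 / z * q ^ v) := by
    intro v _
    unfold wt
    have hqv : 0 ≤ q ^ v := by positivity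
    have hzq : 0 ≤ 1 / z * q ^ v := by positivity
    by_cases h : 1 ≤ v ∧ v < T
    · rw [if_pos h, if_neg (by omega), if_neg (by omega)]
      have : q ^ v * (1 / z) = 1 / z * q ^ v := mul_comm _ _
      linarith
    · rw [if_neg h, mul_one]
      by_cases h0 : v = 0
      · subst h0
        rw [if_pos rfl, if_neg (by omega), pow_zero]
        rw [pow_zero] at hzq
        linarith
      · rw [if_neg h0, if_pos (by omega)]
        linarith
  refine (sum_le_sum h1).trans ?_
  rw [sum_add_distrib, sum_add_distrib, ← mul_sum]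
  have h2 : ∑ v ∈ range M, (if v = 0 then (1 : ℝ) else 0) ≤ 1 := by
    rw [← sum_filter, sum_const, nsmul_eq_mul, mul_one]
    have : ((range M).filter fun v => v = 0).card ≤ 1 :=
      card_le_one.2 fun a ha b hb => by
        rw [mem_filter] at ha hb
        rw [ha.2, hb.2]
    exact_mod_cast this
  have h3 : ∑ v ∈ range M, (if T ≤ v then q ^ v else 0) ≤ q ^ T / (1 - q) := by
    rw [← sum_filter]
    have hsub : (range M).filter (fun v => T ≤ v) ⊆ (range M).image fun k => T + k := by
      intro v hv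
      rw [mem_filter, mem_range] at hv
      rw [mem_image]
      exact ⟨v - T, mem_range.2 (by omega), by omega⟩
    calc ∑ v ∈ (range M).filter (fun v => T ≤ v), q ^ v ≤
          ∑ v ∈ (range M).image fun k => T + k, q ^ v :=
          sum_le_sum_of_subset_of_nonneg hsub fun _ _ _ => by positivity
      _ = ∑ k ∈ range M, q ^ (T + k) := sum_image fun a _ b _ h => by simpa using h
      _ = q ^ T * ∑ k ∈ range M, q ^ k := by rw [mul_sum]; simp only [pow_add]
      _ ≤ q ^ T * (1 / (1 - q)) := mul_le_mul_of_nonneg_left (hgeo M) (by positivity)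
      _ = _ := by rw [mul_one_div]
  have h4 : 1 / z * ∑ v ∈ range M, q ^ v ≤ 1 / z * (1 / (1 - q)) :=
    mul_le_mul_of_nonneg_left (hgeo M) (by positivity)
  linarith

/-- **The number of vectors.** -/
theorem weight_count {ι : Type} [Fintype ι] (K : Finset (ι → ℕ)) (M T : ℕ) (S J q z : ℝ)
    (hq : 0 < q) (hq1 : q < 1) (hz : 1 ≤ z) (hT : 1 ≤ T)
    (hK : ∀ v ∈ K, (∀ i, v i < M) ∧ ((∑ i, v i : ℕ) : ℝ) ≤ S ∧
      (((univ.filter fun i => 1 ≤ v i ∧ v i < T).card : ℕ) : ℝ) ≤ J) :
    (K.card : ℝ) ≤ Real.exp (S * Real.log (1 / q) + J * Real.log z +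
      Fintype.card ι * (q ^ T / (1 - q) + 1 / z * (1 / (1 - q)))) := by
  have hz0 : 0 < z := by linarith
  have h1q : 0 < 1 - q := by linarith
  have hlq : 0 < Real.log (1 / q) := Real.log_pos (by rw [lt_div_iff₀ hq]; linarith)
  have hlz : 0 ≤ Real.log z := Real.log_nonneg hz
  obtain ⟨δ, hδ⟩ : ∃ δ, δ = q ^ T / (1 - q) + 1 / z * (1 / (1 - q)) := ⟨_, rfl⟩
  have hsub : K ⊆ Fintype.piFinset fun _ : ι => range M := by
    intro v hv
    rw [Fintype.mem_piFinset]
    intro i
    exact mem_range.2 ((hK v hv).1 i)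
  have h1 : ∑ v ∈ K, ∏ i, wt q z T (v i) ≤ (1 + δ) ^ Fintype.card ι := by
    calc ∑ v ∈ K, ∏ i, wt q z T (v i) ≤
          ∑ v ∈ Fintype.piFinset fun _ : ι => range M, ∏ i, wt q z T (v i) :=
          sum_le_sum_of_subset_of_nonneg hsub fun v _ _ =>
            prod_nonneg fun i _ => wt_nonneg hq hz0 _ _
      _ = ∏ _i : ι, ∑ v ∈ range M, wt q z T v := by
          rw [← Finset.prod_univ_sum]
      _ ≤ ∏ _i : ι, (1 + δ) := by
          refine prod_le_prod (fun i _ => sum_nonneg fun v _ => wt_nonneg hq hz0 _ _) fun i _ => ?_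
          rw [hδ]
          exact wt_sum hq hq1 hz0 T M hT
      _ = _ := by rw [prod_const, card_univ]
  have h2 : ∀ v ∈ K, Real.exp (-(S * Real.log (1 / q) + J * Real.log z)) ≤
      ∏ i, wt q z T (v i) := by
    intro v hv
    obtain ⟨_, hS, hJ⟩ := hK v hv
    have h3 : ∏ i, wt q z T (v i) = q ^ (∑ i, v i) *
        (1 / z) ^ ((univ.filter fun i => 1 ≤ v i ∧ v i < T).card) := by
      unfold wt
      rw [prod_mul_distrib, prod_pow_eq_pow_sum, prod_ite, prod_const_one, mul_one, prod_const]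
    rw [h3, neg_add, Real.exp_add]
    have e1 : Real.exp (-(S * Real.log (1 / q))) ≤ q ^ (∑ i, v i) := by
      have : q ^ (∑ i, v i) = Real.exp (-(((∑ i, v i : ℕ) : ℝ) * Real.log (1 / q))) := by
        rw [one_div, Real.log_inv, mul_neg, neg_neg, Real.exp_nat_mul, Real.exp_log hq]
      rw [this]
      apply Real.exp_le_exp.2
      have := mul_le_mul_of_nonneg_right hS hlq.le
      linarith
    have e2 : Real.exp (-(J * Real.log z)) ≤
        (1 / z) ^ ((univ.filter fun i => 1 ≤ v i ∧ v i < T).card) := by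
      have : (1 / z) ^ ((univ.filter fun i => 1 ≤ v i ∧ v i < T).card) =
          Real.exp (-((((univ.filter fun i => 1 ≤ v i ∧ v i < T).card : ℕ) : ℝ) *
            Real.log z)) := by
        rw [← mul_neg, ← Real.log_inv, Real.exp_nat_mul, Real.exp_log (by positivity), one_div]
      rw [this]
      apply Real.exp_le_exp.2
      have := mul_le_mul_of_nonneg_right hJ hlz
      linarith
    exact mul_le_mul e1 e2 (Real.exp_pos _).le (by positivity)
  have h3 : (K.card : ℝ) * Real.exp (-(S * Real.log (1 / q) + J * Real.log z)) ≤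
      (1 + δ) ^ Fintype.card ι := by
    calc (K.card : ℝ) * Real.exp (-(S * Real.log (1 / q) + J * Real.log z)) =
          ∑ _v ∈ K, Real.exp (-(S * Real.log (1 / q) + J * Real.log z)) := by
          rw [sum_const, nsmul_eq_mul]
      _ ≤ ∑ v ∈ K, ∏ i, wt q z T (v i) := sum_le_sum h2
      _ ≤ _ := h1
  have h4 : (1 + δ) ^ Fintype.card ι ≤ Real.exp (Fintype.card ι * δ) := by
    rw [Real.exp_nat_mul]
    have hδ0 : 0 ≤ δ := by rw [hδ]; positivity
    apply pow_le_pow_left₀ (by linarith)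
    have := Real.add_one_le_exp δ
    linarith
  rw [← hδ, Real.exp_add]
  rw [Real.exp_neg, mul_inv_le_iff₀ (Real.exp_pos _)] at h3
  calc (K.card : ℝ) ≤ (1 + δ) ^ Fintype.card ι *
        Real.exp (S * Real.log (1 / q) + J * Real.log z) := h3
    _ ≤ Real.exp (Fintype.card ι * δ) * Real.exp (S * Real.log (1 / q) + J * Real.log z) :=
        mul_le_mul_of_nonneg_right h4 (Real.exp_pos _).le
    _ = _ := mul_comm _ _

end Pool.Agent.D0H37.OC
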