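import Pool.Agent.D0H37.OC.Dec
import Pool.Agent.D0H37.OC.Weight

set_option autoImplicit false

/-!
The smooth part and the rough part of a number.
-/

open scoped Classical
open Finset

namespace Pool.Agent.D0H37.OC

/-- the primes up to `Y` -/
noncomputable def PY (Y : ℕ) : Finset ℕ := (range (Y + 1)).filter Nat.Prime

theorem mem_PY {Y p : ℕ} : p ∈ PY Y ↔ p ≤ Y ∧ p.Prime := by
  unfold PY
  rw [mem_filter, mem_range]
  constructor
  · rintro ⟨h1, h2⟩
    exact ⟨by omega, h2⟩
  · rintro ⟨h1, h2⟩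
    exact ⟨by omega, h2⟩

/-- the smooth part -/
noncomputable def sml (Y N : ℕ) : ℕ := ∏ p ∈ PY Y, p ^ N.factorization p

/-- the rough part -/
noncomputable def big (Y N : ℕ) : ℕ :=
  (N.factorization.filter fun p => Y < p).prod fun p k => p ^ k

theorem big_fact (Y N : ℕ) :
    (big Y N).factorization = N.factorization.filter fun p => Y < p := by
  unfold big
  apply Nat.prod_pow_factorization_eq_self
  intro p hp
  rw [Finsupp.support_filter, mem_filter] at hp
  exact Nat.prime_of_mem_primeFactors hp.1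

theorem big_pf (Y N : ℕ) : (big Y N).primeFactors = N.primeFactors.filter fun p => Y < p := by
  rw [← Nat.support_factorization, big_fact, Finsupp.support_filter, Nat.support_factorization]

theorem sml_mul_big {N : ℕ} (hN : N ≠ 0) (Y : ℕ) : N = sml Y N * big Y N := by
  have h := Finsupp.prod_filter_mul_prod_filter_not (fun p => Y < p) N.factorization
    (fun p k : ℕ => p ^ k)
  have h2 : (N.factorization.filter fun p => ¬ Y < p).prod (fun p k : ℕ => p ^ k) = sml Y N := by
    rw [Finsupp.prod_of_support_subset (s := PY Y) _ _ _ (fun i _ => pow_zero i)]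
    · unfold sml
      refine prod_congr rfl fun p hp => ?_
      rw [Finsupp.filter_apply_pos]
      have := (mem_PY.1 hp).1
      omega
    · intro p hp
      rw [Finsupp.support_filter, mem_filter] at hp
      exact mem_PY.2 ⟨by omega, Nat.prime_of_mem_primeFactors hp.1⟩
  rw [h2] at h
  have h3 : N.factorization.prod (fun p k : ℕ => p ^ k) = N :=
    Nat.prod_factorization_pow_eq_self hN
  rw [h3] at h
  rw [mul_comm]
  exact h.symm

theorem sml_coprime {N : ℕ} (hN : N ≠ 0) (Y : ℕ) : (sml Y N).Coprime (big Y N) := by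
  have hb : big Y N ≠ 0 := by
    intro h
    apply hN
    rw [sml_mul_big hN Y, h, mul_zero]
  unfold sml
  apply Nat.Coprime.prod_left
  intro p hp
  obtain ⟨h1, h2⟩ := mem_PY.1 hp
  apply Nat.Coprime.pow_left
  rw [Nat.Prime.coprime_iff_not_dvd h2]
  intro hd
  have h3 : p ∈ (big Y N).primeFactors := Nat.mem_primeFactors.2 ⟨h2, hd, hb⟩
  rw [big_pf, mem_filter] at h3
  omega

/-- at most one exponent is odd -/
theorem odd_sum {N : ℕ} (hodd : Odd N) (hperf : Nat.Perfect N) (F : Finset ℕ)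
    (hF : F ⊆ N.primeFactors) : ∑ p ∈ F, N.factorization p % 2 ≤ 1 := by
  have h1 : (F.filter fun p => N.factorization p % 2 = 1).card ≤ 1 := by
    refine card_le_one.2 fun a ha b hb => ?_
    rw [mem_filter] at ha hb
    by_contra hab
    exact Pool.Agent.Results.MP_f02ea4_nt.IthLargestPrime.euler hodd hperf (hF ha.1) (hF hb.1) hab
      (Nat.odd_iff.2 ha.2) (Nat.odd_iff.2 hb.2)
  refine le_trans ?_ h1
  rw [card_filter]
  refine sum_le_sum fun p _ => ?_
  split_ifs with h
  · exact h.le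
  · omega

theorem mem_cl {S : Finset ℕ} {N : ℕ} (hN : N ∈ S) (hodd : Odd N) (hperf : Nat.Perfect N)
    {Y s : ℕ} (hs : ∑ p ∈ N.primeFactors.filter (fun p => Y < p), N.factorization p ≤ s) :
    N ∈ Cl S Y (sml Y N) s 1 := by
  have hN0 : N ≠ 0 := hperf.2.ne'
  have hval : ∀ p ∈ N.primeFactors.filter (fun p => Y < p), (big Y N).factorization p =
      N.factorization p := by
    intro p hp
    rw [mem_filter] at hp
    rw [big_fact, Finsupp.filter_apply_pos]
    exact hp.2
  unfold Cl
  rw [mem_filter]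
  refine ⟨hN, big Y N, sml_mul_big hN0 Y, sml_coprime hN0 Y, ?_, ?_, ?_⟩
  · intro p hp
    rw [big_pf, mem_filter] at hp
    exact hp.2
  · rw [big_pf, sum_congr rfl hval]
    exact hs
  · rw [big_pf, sum_congr rfl fun p hp => by rw [hval p hp]]
    exact odd_sum hodd hperf _ (filter_subset _ _)

/-- the number of the smooth parts -/
theorem card_sml (S : Finset ℕ) (Y Z M T : ℕ) (hZ : Z ≤ Y) (SS J q z : ℝ)
    (hq : 0 < q) (hq1 : q < 1) (hz : 1 ≤ z) (hT : 1 ≤ T) (hM : 1 ≤ M)
    (h : ∀ N ∈ S, (∀ p, N.factorization p < M) ∧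
      ((∑ p ∈ (PY Y).filter (fun p => Z < p), N.factorization p : ℕ) : ℝ) ≤ SS ∧
      ((((PY Y).filter fun p => 1 ≤ N.factorization p ∧ N.factorization p < T).card : ℕ) : ℝ)
        ≤ J) :
    ((S.image (sml Y)).card : ℝ) ≤ (M : ℝ) ^ Z * Real.exp (SS * Real.log (1 / q) +
      J * Real.log z + (PY Y).card * (q ^ T / (1 - q) + 1 / z * (1 / (1 - q)))) := by
  have h1q : 0 < 1 - q := by linarith
  have hz0 : 0 < z := by linarith
  obtain ⟨Q2, hQ2⟩ : ∃ Q2, Q2 = (PY Y).filter (fun p => Z < p) := ⟨_, rfl⟩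
  obtain ⟨K, hK⟩ : ∃ K : Finset (↥Q2 → ℕ), K = S.image fun N => fun p : ↥Q2 =>
    N.factorization p := ⟨_, rfl⟩
  obtain ⟨P1, hP1⟩ : ∃ P1 : Finset (↥(PY Z) → ℕ), P1 = Fintype.piFinset fun _ => range M :=
    ⟨_, rfl⟩
  have hsub : S.image (sml Y) ⊆ (P1 ×ˢ K).image fun v =>
      (∏ p : ↥(PY Z), (p : ℕ) ^ v.1 p) * ∏ p : ↥Q2, (p : ℕ) ^ v.2 p := by
    intro A hA
    rw [mem_image] at hA
    obtain ⟨N, hN, rfl⟩ := hA
    rw [mem_image]
    refine ⟨(fun p => N.factorization p, fun p => N.factorization p), ?_, ?_⟩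
    · rw [mem_product, hP1, hK]
      refine ⟨?_, mem_image_of_mem _ hN⟩
      rw [Fintype.mem_piFinset]
      intro p
      exact mem_range.2 ((h N hN).1 p)
    · simp only
      rw [Finset.prod_coe_sort (PY Z) fun p => p ^ N.factorization p,
        Finset.prod_coe_sort Q2 fun p => p ^ N.factorization p, hQ2]
      have h1 := Finset.prod_filter_mul_prod_filter_not (PY Y) (fun p => Z < p)
        fun p => p ^ N.factorization p
      have h2 : (PY Y).filter (fun p => ¬ Z < p) = PY Z := by
        ext p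
        rw [mem_filter, mem_PY, mem_PY]
        constructor
        · rintro ⟨⟨h3, h4⟩, h5⟩
          exact ⟨by omega, h4⟩
        · rintro ⟨h3, h4⟩
          exact ⟨⟨by omega, h4⟩, by omega⟩
      rw [h2] at h1
      unfold sml
      rw [← h1, mul_comm]
  have hc1 : (S.image (sml Y)).card ≤ P1.card * K.card := by
    refine (card_le_card hsub).trans (card_image_le.trans ?_)
    rw [card_product]
  have hc2 : P1.card ≤ M ^ Z := by
    rw [hP1, Fintype.card_piFinset, prod_const, card_range, card_univ, Fintype.card_coe]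
    apply Nat.pow_le_pow_right hM
    have h1 : PY Z ⊆ Icc 1 Z := by
      intro p hp
      obtain ⟨h2, h3⟩ := mem_PY.1 hp
      exact mem_Icc.2 ⟨h3.one_lt.le, h2⟩
    have h2 := card_le_card h1
    rw [Nat.card_Icc] at h2
    omega
  have hc3 := weight_count K M T SS J q z hq hq1 hz hT (by
    intro v hv
    rw [hK, mem_image] at hv
    obtain ⟨N, hN, rfl⟩ := hv
    obtain ⟨h1, h2, h3⟩ := h N hN
    refine ⟨fun i => h1 i, ?_, ?_⟩
    · rw [Finset.sum_coe_sort Q2 fun p => N.factorization p, hQ2]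
      exact h2
    · refine le_trans ?_ h3
      have h4 : (univ.filter fun i : ↥Q2 => 1 ≤ N.factorization i ∧ N.factorization i < T).card ≤
          ((PY Y).filter fun p => 1 ≤ N.factorization p ∧ N.factorization p < T).card := by
        refine card_le_card_of_injOn Subtype.val ?_ Subtype.val_injective.injOn
        intro i hi
        rw [mem_coe, mem_filter] at hi
        rw [mem_coe, mem_filter]
        have h5 : ∀ j ∈ Q2, j ∈ PY Y := fun j hj => by
          rw [hQ2, mem_filter] at hj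
          exact hj.1
        exact ⟨h5 i i.2, hi.2⟩
      exact_mod_cast h4)
  have hδ : 0 ≤ q ^ T / (1 - q) + 1 / z * (1 / (1 - q)) := by positivity
  have hc4 : (Fintype.card ↥Q2 : ℝ) ≤ (PY Y).card := by
    rw [Fintype.card_coe, hQ2]
    exact_mod_cast card_le_card (filter_subset _ _)
  calc ((S.image (sml Y)).card : ℝ) ≤ (P1.card : ℝ) * K.card := by exact_mod_cast hc1
    _ ≤ (M : ℝ) ^ Z * Real.exp (SS * Real.log (1 / q) + J * Real.log z +
        Fintype.card ↥Q2 * (q ^ T / (1 - q) + 1 / z * (1 / (1 - q)))) := by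
        apply mul_le_mul _ hc3 (Nat.cast_nonneg _) (by positivity)
        exact_mod_cast hc2
    _ ≤ _ := by
        apply mul_le_mul_of_nonneg_left _ (by positivity)
        apply Real.exp_le_exp.2
        have := mul_le_mul_of_nonneg_right hc4 hδ
        linarith

/-- the total number -/
theorem card_all (S : Finset ℕ) (hS : ∀ N ∈ S, Odd N ∧ N.Perfect) (Y s : ℕ)
    (hY : 2 * s + 2 ≤ Y)
    (hs : ∀ N ∈ S, ∑ p ∈ N.primeFactors.filter (fun p => Y < p), N.factorization p ≤ s) :
    S.card ≤ (S.image (sml Y)).card * ((s + 2) * 2 ^ ((s + 1) / 2)) := by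
  have hS' : ∀ N ∈ S, Odd N ∧ ∑ d ∈ N.divisors, d = 2 * N := fun N hN =>
    ⟨(hS N hN).1, (Nat.perfect_iff_sum_divisors_eq_two_mul (hS N hN).2.2).1 (hS N hN).2⟩
  have h1 : S ⊆ (S.image (sml Y)).biUnion fun A => Cl S Y A s 1 := by
    intro N hN
    rw [mem_biUnion]
    exact ⟨sml Y N, mem_image_of_mem _ hN, mem_cl hN (hS N hN).1 (hS N hN).2 (hs N hN)⟩
  calc S.card ≤ ((S.image (sml Y)).biUnion fun A => Cl S Y A s 1).card := card_le_card h1
    _ ≤ (S.image (sml Y)).card * ((s + 2) * 2 ^ ((s + 1) / 2)) :=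
        card_biUnion_le_card_mul _ _ _ fun A _ => card1 hS' Y s A hY

end Pool.Agent.D0H37.OC
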